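import Pool.Agent.W187.MW.Stm
import Pool.Agent.W976.WQ.Neg

/-! MW-C1: the kernel isolating one zero, with bounded derivative (helper347). -/

set_option autoImplicit false

open Complex MeasureTheory Set Filter
open scoped ComplexConjugate Topology Convolution
open Pool.Agent.W187.WP Pool.Agent.W187.WQ Pool.Agent.W187.MW Pool.Agent.W8.WP

namespace Pool.Agent.W347.MW

theorem hcs {g : ℝ → ℂ} {δ : ℝ} (h : ∀ u, δ < |u| → g u = 0) : HasCompactSupport g := by
  apply HasCompactSupport.intro (isCompact_Icc (a := -δ) (b := δ))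
  intro x hx
  apply h
  by_contra hcon
  exact hx (abs_le.1 (not_lt.1 hcon))

/-- the bound of a convolution -/
theorem conv_norm {k b : ℝ → ℂ} {E : ℝ} (hk : ∀ u, ‖k u‖ ≤ E)
    (hb : Integrable b) (u : ℝ) :
    ‖(k ⋆[ContinuousLinearMap.mul ℝ ℂ, volume] b) u‖ ≤ E * ∫ t, ‖b t‖ := by
  rw [convolution_def]
  have h1 : ∫ t, ‖b t‖ = ∫ t, ‖b (u - t)‖ := (integral_sub_left_eq_self (fun t => ‖b t‖) volume u).symm
  rw [h1, ← integral_const_mul]
  have h2 : Integrable (fun t => ‖b (u - t)‖) := (hb.comp_sub_left u).norm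
  refine norm_integral_le_of_norm_le (h2.const_mul E) (Eventually.of_forall fun t => ?_)
  rw [ContinuousLinearMap.mul_apply', norm_mul]
  exact mul_le_mul_of_nonneg_right (hk t) (norm_nonneg _)

theorem kk1 (hKK : S_KK) : S_KK1 := by
  intro ρ₀ σ δ η hρ₀ hσ hσ1 hδ hη
  obtain ⟨b, hb, hbs, hb1, -⟩ := Pool.Agent.W976.WQ.bump_at (ρ₀ - 1 / 2) (half_pos hδ)
  have hbc : HasCompactSupport b := hcs hbs
  have hb' : ContDiff ℝ 1 (deriv b) := ((contDiff_succ_iff_deriv (n := 1)).1 hb).2.2
  have hbi : Integrable b := hb.continuous.integrable_of_hasCompactSupport hbc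
  have hbi' : Integrable (deriv b) := hb'.continuous.integrable_of_hasCompactSupport hbc.deriv
  obtain ⟨M, hM0, hM⟩ := lap_bdd hb.continuous hbc (1 / 2)
  set I0 := ∫ t, ‖b t‖ with hI0
  set I1 := ∫ t, ‖deriv b t‖ with hI1
  have hI00 : 0 ≤ I0 := integral_nonneg fun _ => norm_nonneg _
  have hI10 : 0 ≤ I1 := integral_nonneg fun _ => norm_nonneg _
  have h1 := (tendsto_id.const_mul_atTop (zero_lt_two : (0 : ℝ) < 2)).eventually
    (hKK ρ₀ σ (δ / 2) (η / 4) hρ₀ hσ hσ1 (half_pos hδ) (by linarith))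
  have h2 : ∀ᶠ L : ℝ in atTop, I0 + I1 + M ≤ Real.exp (η / 2 * L) :=
    (Real.tendsto_exp_atTop.comp (tendsto_id.const_mul_atTop (half_pos hη))).eventually_ge_atTop _
  have h3 : ∀ᶠ L : ℝ in atTop, I0 + I1 + M ≤ Real.exp L :=
    Real.tendsto_exp_atTop.eventually_ge_atTop _
  filter_upwards [h1, h2, h3, eventually_ge_atTop (0 : ℝ)] with L hL1 hL2 hL3 hL0
  obtain ⟨k, hk, hks, hkb, hkl, hku, hkz⟩ := hL1
  simp only [id] at hkb hkl hku hkz
  have hkc : HasCompactSupport k := hcs hks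
  have e1 : η / 4 * (2 * L) = η / 2 * L := by ring
  rw [e1] at hkl
  simp only [e1] at hkb hku
  have hkL : LocallyIntegrable k := hk.continuous.locallyIntegrable
  have hexp : Real.exp (η / 2 * L) * Real.exp (η / 2 * L) = Real.exp (η * L) := by
    rw [← Real.exp_add]; congr 1; ring
  have hE0 : 0 < Real.exp (η / 2 * L) := Real.exp_pos _
  have hlap : ∀ z, lap (k ⋆[ContinuousLinearMap.mul ℝ ℂ, volume] b) z = lap k z * lap b z := by
    intro z
    exact Pool.Agent.W976.WQ.lap_conv (int_mul hk.continuous hkc (by fun_prop))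
      (int_mul hb.continuous hbc (by fun_prop))
  refine ⟨k ⋆[ContinuousLinearMap.mul ℝ ℂ, volume] b, ?_, ?_, ?_, ?_, ?_, ?_, ?_⟩
  · exact hbc.contDiff_convolution_right _ hkL hb
  · intro u hu
    rw [convolution_def]
    have h0 : ∀ t, (ContinuousLinearMap.mul ℝ ℂ) (k t) (b (u - t)) = 0 := by
      intro t
      rw [ContinuousLinearMap.mul_apply']
      by_cases ht : δ / 2 < |t|
      · rw [hks t ht, zero_mul]
      · rw [hbs (u - t), mul_zero]
        have h4 := abs_sub_abs_le_abs_sub u t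
        linarith
    simp [h0]
  · intro u
    refine (conv_norm hkb hbi u).trans ?_
    rw [← hexp]
    exact mul_le_mul_of_nonneg_left (by linarith) hE0.le
  · intro u
    rw [(hbc.hasDerivAt_convolution_right (ContinuousLinearMap.mul ℝ ℂ) hkL
      (hb.of_le (by norm_num)) u).deriv]
    refine (conv_norm hkb hbi' u).trans ?_
    rw [← hexp]
    exact mul_le_mul_of_nonneg_left (by linarith) hE0.le
  · rw [hlap, hb1, mul_one]
    refine le_trans ?_ hkl
    rw [Real.exp_le_exp]
    nlinarith [mul_nonneg hη.le hL0]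
  · intro z hz
    rw [hlap, norm_mul]
    have h4 := hku z hz
    have h5 := hM z hz
    have h6 : 0 < 1 + z.im ^ 2 := by positivity
    calc ‖lap k z‖ * ‖lap b z‖ ≤ (Real.exp (η / 2 * L) / (1 + z.im ^ 2)) * Real.exp (η / 2 * L) :=
          mul_le_mul h4 (by linarith) (norm_nonneg _) (by positivity)
      _ = Real.exp (η * L) / (1 + z.im ^ 2) := by rw [← hexp]; ring
  · intro ρ hρ hne hσρ
    rw [hlap, norm_mul]
    have h4 := hkz ρ hρ hne hσρ
    have h5 := hM (ρ - 1 / 2) (by
      have h7 : (ρ - 1 / 2).re = ρ.re - 1 / 2 := by simp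
      rw [h7, abs_le]
      constructor <;> linarith [hρ.2.1, hρ.2.2])
    calc ‖lap k (ρ - 1 / 2)‖ * ‖lap b (ρ - 1 / 2)‖
        ≤ (Real.exp (-(2 * L)) / (1 + ρ.im ^ 2)) * Real.exp L :=
          mul_le_mul h4 (by linarith) (norm_nonneg _) (by positivity)
      _ = Real.exp (-L) / (1 + ρ.im ^ 2) := by
          have : Real.exp (-L) = Real.exp (-(2 * L)) * Real.exp L := by
            rw [← Real.exp_add]; congr 1; ring
          rw [this]; ring

end Pool.Agent.W347.MW
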